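import Pool.Agent.Lib.MP_7bc610_gt.H9Fin

/-!
The Jones polynomial detects the unknot among algebraically alternating knots.
-/

namespace Pool.Agent.Results.MP_7bc610_gt.AlgAlternating

open Pool.Agent.Lib.MP_7bc610_gt

/-- If the Kauffman bracket of an algebraically alternating diagram is `± A^k` (in particular
if its Jones polynomial is `1`), then the diagram is related to the round circle by planar
isotopy and Reidemeister moves. -/
theorem result (D : List (Piece × ℕ)) (hv : Valid 0 (expand D) 0) (ha : AlgAlt D) (k : ℤ)
    (h : stateSum (expand D) = loopVal * LaurentPolynomial.T k ∨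
      stateSum (expand D) = -(loopVal * LaurentPolynomial.T k)) :
    Isotopic 0 0 (expand D) [(Kind.cup, 0), (Kind.cap, 0)] :=
  final9 D hv ha k h

end Pool.Agent.Results.MP_7bc610_gt.AlgAlternating
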