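import Pool.Agent.Lib.MP_7bc610_gt.M29Main

/-!
The Jones polynomial reduced modulo `m` does not detect the unknot when all prime factors of `m`
are at most `7`.
-/

namespace Pool.Agent.Results.MP_7bc610_gt.Modular

open Pool.Agent.Lib.MP_7bc610_gt LaurentPolynomial

/-- For every `m` whose prime factors are at most `7` there is a knot diagram `D` of writhe `w`
with normalised bracket `1 + m g` and `g ≠ 0`; it is not equivalent to the round circle. -/
theorem result (m : ℕ) (hm : ∀ p : ℕ, p.Prime → p ∣ m → p ≤ 7) :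
    ∃ (D : Word) (w : ℤ) (g : ℤ[T;T⁻¹]), Valid 0 D 0 ∧ comps D Eq = 1 ∧ Ori [] D [] w ∧
      stateSum D = loopVal * (C (w.negOnePow : ℤ) * T (3 * w)) * (1 + (m : ℤ[T;T⁻¹]) * g) ∧
      g ≠ 0 ∧ ¬Isotopic 0 0 D [(Kind.cup, 0), (Kind.cap, 0)] := by
  obtain ⟨X, hX⟩ := good_smooth m hm
  refine knot_of_good (fun h => ?_) hX
  exact absurd (hm 11 (by norm_num) (h ▸ dvd_zero _)) (by norm_num)

end Pool.Agent.Results.MP_7bc610_gt.Modular
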