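import Pool.Agent.Lib.MP_7bc610_gt.RpMain

/-!
The Jones polynomial of links in real projective 3-space does not detect the projective line.
-/

namespace Pool.Agent.Results.MP_7bc610_gt.ProjectiveLine

open Pool.Agent.Lib.MP_7bc610_gt LaurentPolynomial

/-- There is a knot diagram `D` in the projective plane with an odd number `n` of points on the
line at infinity and writhe `w` whose normalised bracket is `1`, as for the projective line, and
which is not equivalent to the projective line. -/
theorem result : ∃ (n : ℕ) (D : Word) (p : List Bool) (w : ℤ), Odd n ∧ p.length = n ∧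
    Valid (2 * n) D 0 ∧ comps D (anti n) = 1 ∧ Ori (p ++ p.map not) D [] w ∧
    ev D (anti n) = loopVal * (C (w.negOnePow : ℤ) * T (3 * w)) ∧
    ¬Relation.EqvGen PStep (n, D) (1, [(Kind.cap, 0)]) :=
  ⟨3, Rp.D8, [true, false, true], 4, by decide, rfl, Rp.valid_D8, Rp.comps_D8, Rp.ori_D8,
    by simp [Rp.ev_D8, Int.negOnePow_even 4 (by decide)], Rp.not_line⟩

end Pool.Agent.Results.MP_7bc610_gt.ProjectiveLine
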