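import Pool.Agent.Lib.MP_7bc610_gt.Ta.Final

/-!
The Jones polynomial of a link with an alternating diagram of representativity greater than four
on the standard torus in the 3-sphere is not trivial.
-/

namespace Pool.Agent.Results.MP_7bc610_gt.ToroidalAlternating

open Pool.Agent.Lib.MP_7bc610_gt Pool.Agent.Lib.MP_7bc610_gt.Ta

/-- The Kauffman bracket of the link in the 3-sphere given by a connected reduced alternating
checkerboard diagram on the standard torus, with disc regions and representativity at least six,
is not `± A^k`. -/
theorem result (p q : ℕ) (w : Word) (h : TorAlt 6 p q w) (k : ℤ) :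
    stateSum (torusWord p q w) ≠ loopVal * LaurentPolynomial.T k ∧
      stateSum (torusWord p q w) ≠ -(loopVal * LaurentPolynomial.T k) :=
  final h k

end Pool.Agent.Results.MP_7bc610_gt.ToroidalAlternating
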